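import Pool.Agent.H578.CM.M96

set_option autoImplicit false

/-!
# `Z_p(96)` modulo `p²`
-/

open Finset

namespace Pool.Agent.Results.MP_adc642_nt.FranelNinetySix

/-- the Franel numbers -/
def f (n : ℕ) : ℕ := ∑ k ∈ range (n + 1), (n.choose k) ^ 3

/-- the sum `Z_p(m) = ∑_{n<p} C(2n,n) f_n m^{-n}` -/
def Z (p : ℕ) (m : ℤ) : ℚ := ∑ n ∈ range p, ((2 * n).choose n : ℚ) * (f n : ℚ) / (m : ℚ) ^ n

/-- congruence modulo `p²` of rational numbers: `(a - b) / p²` has denominator prime to `p` -/
def Cong (p : ℕ) (a b : ℚ) : Prop := p.Coprime ((a - b) / (p : ℚ) ^ 2).den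

theorem result (p : ℕ) (hp : p.Prime) (h5 : 5 ≤ p) :
    ((p % 8 = 1 ∨ p % 8 = 3) → ∀ x y : ℤ, (p : ℤ) = x ^ 2 + 2 * y ^ 2 →
      Cong p (Z p 96) ((jacobiSym p 3 : ℚ) * (4 * (x : ℚ) ^ 2 - 2 * p))) ∧
    ((p % 8 = 5 ∨ p % 8 = 7) → Cong p (Z p 96) 0) := by
  have : Fact p.Prime := ⟨hp⟩
  rcases Nat.lt_or_ge 5 p with h5' | h5'
  · have hM : ¬ (p : ℤ) ∣ 96 := by
      have := Pool.Agent.H546.ndvd_of_primes p (n := 96) (l := [2, 2, 2, 2, 2, 3]) (by simp; norm_num)
        (by norm_num) (by simp; omega)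
      exact_mod_cast this
    obtain ⟨wi, hwi⟩ := Pool.Agent.H546.inv_exists hM
    have tr : ∀ E : ℤ, Pool.Agent.H547.AA p wi = ((E : ℤ) : ZMod (p ^ 2)) → Cong p (Z p 96) (E : ℚ) := by
      intro E hE
      have := Pool.Agent.H547.trA hM hwi E hE
      unfold Cong
      rw [Nat.Prime.coprime_iff_not_dvd hp]
      have e : Z p 96 = ∑ k ∈ range p, ((k.centralBinom : ℚ) * (Pool.Agent.H547.fr k : ℚ)) / ((96 : ℤ) : ℚ) ^ k := by
        unfold Z
        refine sum_congr rfl fun k _ => ?_
        rw [Nat.centralBinom]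
        rfl
      rw [e]
      exact this
    obtain ⟨h1, h2, h4⟩ := Pool.Agent.H578.CM.M96.main p h5' hwi
    have h3 : p % 3 = 1 ∨ p % 3 = 2 := by
      have : p % 3 ≠ 0 := by
        intro h0
        have := (Nat.prime_dvd_prime_iff_eq Nat.prime_three hp).mp (Nat.dvd_of_mod_eq_zero h0)
        omega
      omega
    refine ⟨fun hc x y hxy => ?_, fun hc => ?_⟩
    · rcases h3 with h3 | h3
      · have hj : jacobiSym p 3 = 1 := by
          rw [jacobiSym.mod_left]
          have : ((p : ℤ) % ((3 : ℕ) : ℤ)) = 1 := by omega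
          rw [this]; norm_num
        have := tr _ (h1 x y h3 hc hxy)
        push_cast at this
        rw [hj, Int.cast_one, one_mul]
        exact this
      · have hj : jacobiSym p 3 = -1 := by
          rw [jacobiSym.mod_left]
          have : ((p : ℤ) % ((3 : ℕ) : ℤ)) = 2 := by omega
          rw [this]; norm_num
        have := tr _ (h2 x y h3 hc hxy)
        push_cast at this
        rw [hj, Int.cast_neg, Int.cast_one, neg_one_mul]
        exact this
    · have := tr 0 (h4 hc)
      push_cast at this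
      exact this
  · have hp5 : p = 5 := by omega
    subst hp5
    refine ⟨fun hc => by omega, fun _ => ?_⟩
    have e : Z 5 96 = 22289575 / 21233664 := by
      unfold Z f
      simp only [sum_range_succ, sum_range_zero]
      norm_num [Nat.choose]
    unfold Cong
    rw [e]
    norm_num

end Pool.Agent.Results.MP_adc642_nt.FranelNinetySix
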